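import Mathlib
import Pool.Agent.Helper73.GrigDefs
import Pool.Agent.Helper73.GrigProof

/-!
# Depth versus word length in the Grigorchuk group (MP_40d7e0_al, Q1 and Q2)

We show that `d(g) ≤ log₂ |g| + c` holds for a suitable constant, and that for no `lam < 1` is there
a constant `c` with `d(g) ≤ lam * log₂ |g| + c` for all `g ≠ 1`.  So the answer to Q1 is negative
and the constant of Q2 is `lam* = 1`.

For the lower bound we use the substitution `a ↦ b, b ↦ ada, c ↦ aba, d ↦ aca`, which turns a word
for `g` into a word for an element fixing the vertex `0` and having section `g` there.  It exactly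
doubles the weight `#a + 2 #{b,c,d}`, so from `ab` we get elements `g_n` with `|g_n| ≤ 3 * 2^n` whose
section at `0^n` is `ab`, hence `d(g_n) > n`.
-/

namespace Pool.Agent.Results.MP_40d7e0_al.DepthExponentOne

open Pool.Agent.Helper73.Grig

/-- **Answer to Q1 and Q2.** The least `lam` for which there is a constant `c` with
`d(g) ≤ lam * log₂ |g| + c` for all `g ≠ 1` in the Grigorchuk group is `1`. -/
theorem result :
    IsLeast {lam : ℝ | ∃ c : ℝ, ∀ g ∈ grigorchuk, g ≠ 1 →
      (depth g : ℝ) ≤ lam * Real.logb 2 (wordLength g) + c} 1 :=
  main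

end Pool.Agent.Results.MP_40d7e0_al.DepthExponentOne
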